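import Pool.Agent.H11.NS.Targets

/-!
# Module G8 of the board ns_modules (MP_9b2842_al)
-/

set_option autoImplicit false

open Equiv (Perm)

namespace Pool.Agent.H49.NS.G8

open Pool.Agent.H11.NS

/-- a three-cycle moves three points cyclically and fixes the others -/
theorem threeCycle_points {O : Type*} [Fintype O] [DecidableEq O] (ρ : Perm O)
    (h : ρ.IsThreeCycle) :
    ∃ o₁ o₂ o₃ : O, o₁ ≠ o₂ ∧ o₁ ≠ o₃ ∧ o₂ ≠ o₃ ∧ ρ o₁ = o₂ ∧ ρ o₂ = o₃ ∧ ρ o₃ = o₁ ∧
      ∀ o, o ≠ o₁ → o ≠ o₂ → o ≠ o₃ → ρ o = o := by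
  have hcard : ρ.support.card = 3 := h.card_support
  have h3 : ρ ^ 3 = 1 := by
    rw [← h.orderOf]
    exact pow_orderOf_eq_one ρ
  obtain ⟨o₁, ho₁⟩ : ρ.support.Nonempty := by
    rw [← Finset.card_pos, hcard]
    norm_num
  have h1 : ρ o₁ ≠ o₁ := Equiv.Perm.mem_support.1 ho₁
  have h2 : ρ (ρ o₁) ≠ ρ o₁ := fun h' => h1 (ρ.injective h')
  have hc : ρ (ρ (ρ o₁)) = o₁ := by
    have := congrArg (fun f : Perm O => f o₁) h3
    simpa [pow_succ, Equiv.Perm.mul_apply] using this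
  have h4 : ρ (ρ o₁) ≠ o₁ := fun h' => by
    rw [h'] at hc
    exact h1 hc
  refine ⟨o₁, ρ o₁, ρ (ρ o₁), h1.symm, h4.symm, h2.symm, rfl, rfl, hc, ?_⟩
  intro o ho1 ho2 ho3
  have hsub : ({o₁, ρ o₁, ρ (ρ o₁)} : Finset O) ⊆ ρ.support := by
    intro x hx
    simp only [Finset.mem_insert, Finset.mem_singleton] at hx
    rw [Equiv.Perm.mem_support]
    rcases hx with rfl | rfl | rfl
    · exact h1
    · exact h2
    · rw [hc]
      exact h4.symm
  have hc3 : ({o₁, ρ o₁, ρ (ρ o₁)} : Finset O).card = 3 := by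
    rw [Finset.card_eq_three]
    exact ⟨_, _, _, h1.symm, h4.symm, h2.symm, rfl⟩
  have heq := Finset.eq_of_subset_of_card_le hsub (by rw [hc3, hcard])
  by_contra hne
  have : o ∈ ρ.support := Equiv.Perm.mem_support.2 hne
  rw [← heq] at this
  simp only [Finset.mem_insert, Finset.mem_singleton] at this
  rcases this with h' | h' | h'
  · exact ho1 h'
  · exact ho2 h'
  · exact ho3 h'

theorem card_factors {Ω : Type*} [Fintype Ω] [DecidableEq Ω] (γ : Perm Ω) (ℓ c : ℕ)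
    (hℓ : 0 < ℓ) (hγ : γ ^ ℓ = 1) (hc : ℓ * c ≤ γ.support.card) :
    c ≤ γ.cycleFactorsFinset.card := by
  have h1 : γ.cycleType.sum ≤ Multiset.card γ.cycleType • ℓ := by
    refine Multiset.sum_le_card_nsmul _ _ fun x hx => ?_
    exact Nat.le_of_dvd hℓ
      ((Equiv.Perm.dvd_of_mem_cycleType hx).trans (orderOf_dvd_of_pow_eq_one hγ))
  rw [Equiv.Perm.sum_cycleType, smul_eq_mul] at h1
  have h2 : Multiset.card γ.cycleType = γ.cycleFactorsFinset.card := by
    rw [Equiv.Perm.cycleType_def, Multiset.card_map]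
    rfl
  rw [h2] at h1
  have h3 : ℓ * c ≤ ℓ * γ.cycleFactorsFinset.card := by
    rw [mul_comm ℓ γ.cycleFactorsFinset.card]
    exact hc.trans h1
  exact Nat.le_of_mul_le_mul_left h3 hℓ

theorem pf_g8 : T_OR2 → T_AI → T_G8 := by
  intro hOR2 hAI L _ _ Ω _ _ φ hφ K hK hKφ ℓ hℓ hℓK hcomm g hg c hc hcard S hS hSsol
  have hγℓ : (φ g : Perm Ω) ^ ℓ = 1 := by
    rw [← Subgroup.coe_pow, ← map_pow, hg, map_one]
    rfl
  have hcO : c ≤ (φ g : Perm Ω).cycleFactorsFinset.card :=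
    card_factors _ ℓ c hℓ.pos hγℓ hcard
  let κ : Subgroup.centralizer ({g} : Set L) →*
      Subgroup.centralizer ({(φ g : Perm Ω)} : Set (Perm Ω)) :=
    ((alternatingGroup Ω).subtype.comp
      (φ.comp (Subgroup.centralizer ({g} : Set L)).subtype)).codRestrict _ (fun s => by
        rw [Subgroup.mem_centralizer_iff]
        intro h hh
        rw [Set.mem_singleton_iff] at hh
        subst hh
        have h1 := Subgroup.mem_centralizer_iff.1 s.2 g rfl
        show (φ g : Perm Ω) * (φ (s : L) : Perm Ω) = (φ (s : L) : Perm Ω) * (φ g : Perm Ω)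
        rw [← Subgroup.coe_mul, ← Subgroup.coe_mul, ← map_mul, ← map_mul, h1])
  let θ : Subgroup.centralizer ({g} : Set L) →* Perm (φ g : Perm Ω).cycleFactorsFinset :=
    (Equiv.Perm.OnCycleFactors.toPermHom (φ g : Perm Ω)).comp κ
  have hθ : ∀ (s : Subgroup.centralizer ({g} : Set L))
      (o : (φ g : Perm Ω).cycleFactorsFinset),
      ((θ s o : (φ g : Perm Ω).cycleFactorsFinset) : Perm Ω) =
        (φ (s : L) : Perm Ω) * (o : Perm Ω) * (φ (s : L) : Perm Ω)⁻¹ := fun s o => rfl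
  have hO : Fintype.card (φ g : Perm Ω).cycleFactorsFinset =
      (φ g : Perm Ω).cycleFactorsFinset.card := Fintype.card_coe _
  have hmain := hAI (Subgroup.centralizer ({g} : Set L)) (φ g : Perm Ω).cycleFactorsFinset θ
    (by rw [hO]; exact hc.trans hcO) ?_ S hS hSsol Subgroup.index_ne_zero_of_finite
  · refine le_trans (Nat.factorial_le ?_) hmain
    rw [hO]
    exact hcO
  · intro ρ hρ
    obtain ⟨o₁, o₂, o₃, h12, h13, h23, r1, r2, r3, rfix⟩ := threeCycle_points ρ hρ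
    obtain ⟨s, hs, s1, s2, s3, sfix⟩ := hOR2 L Ω φ hφ K hK hKφ ℓ hℓ hℓK hcomm g hg
      (o₁ : Perm Ω) (o₂ : Perm Ω) (o₃ : Perm Ω) o₁.2 o₂.2 o₃.2
      (fun h => h12 (Subtype.ext h)) (fun h => h13 (Subtype.ext h))
      (fun h => h23 (Subtype.ext h))
    refine ⟨⟨s, Subgroup.mem_centralizer_iff.2 fun x hx => ?_⟩, ?_⟩
    · rw [Set.mem_singleton_iff] at hx
      subst hx
      exact hs.symm
    · refine Equiv.ext fun o => Subtype.ext ?_
      rw [hθ]
      by_cases e1 : o = o₁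
      · subst e1
        rw [r1]
        exact s1
      by_cases e2 : o = o₂
      · subst e2
        rw [r2]
        exact s2
      by_cases e3 : o = o₃
      · subst e3
        rw [r3]
        exact s3
      rw [rfix o e1 e2 e3]
      exact sfix o o.2 (fun h => e1 (Subtype.ext h)) (fun h => e2 (Subtype.ext h))
        (fun h => e3 (Subtype.ext h))

end Pool.Agent.H49.NS.G8
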