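import Pool.Agent.H11.NS.Targets

/-!
# Module UA of the board ns_modules (MP_9b2842_al)
-/

set_option autoImplicit false

open Equiv (Perm)

namespace Pool.Agent.H49.NS.UA

open Pool.Agent.H11.NS

section gen

variable {G : Type} [Group G] {π : Finset ℕ}

theorem finOrd (hC : Cover G π) (x : G) : IsOfFinOrder x := by
  obtain ⟨L, n, φ, hgood, hF, -⟩ := hC {x} 0
  have := hgood.1
  have hx : x ∈ L := hF x (Finset.mem_singleton_self x)
  have h1 : IsOfFinOrder (⟨x, hx⟩ : L) := isOfFinOrder_of_finite _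
  exact Submonoid.isOfFinOrder_coe.2 h1

theorem exists_ord (hC : Cover G π) (q : ℕ) (hq : q.Prime) (hq2 : q ≠ 2) :
    ∃ x : G, orderOf x = q := by
  obtain ⟨L, n, φ, ⟨hfin, hsurj, -⟩, -, hn⟩ := hC ∅ q
  have := hfin
  have : Fact q.Prime := ⟨hq⟩
  have : Nontrivial (Fin n) := Fin.nontrivial_iff_two_le.2 (hq.two_le.trans hn)
  have h1 : 2 * Nat.card (alternatingGroup (Fin n)) = n.factorial := by
    rw [two_mul_nat_card_alternatingGroup, Nat.card_perm, Nat.card_fin]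
  have h2 : q ∣ Nat.card (alternatingGroup (Fin n)) := by
    have h3 : q ∣ 2 * Nat.card (alternatingGroup (Fin n)) := by
      rw [h1]
      exact hq.dvd_factorial.2 hn
    exact ((Nat.coprime_primes hq Nat.prime_two).2 hq2).dvd_of_dvd_mul_left h3
  obtain ⟨x, hx⟩ := exists_prime_orderOf_dvd_card' q
    (h2.trans (Subgroup.card_dvd_of_surjective φ hsurj))
  exact ⟨x, by rw [Subgroup.orderOf_coe, hx]⟩

/-- the centralizer in a subgroup maps into the centralizer in the group -/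
def cj (L : Subgroup G) (g : G) (hg : g ∈ L) :
    Subgroup.centralizer ({(⟨g, hg⟩ : L)} : Set L) →* Subgroup.centralizer ({g} : Set G) :=
  (L.subtype.comp (Subgroup.centralizer ({(⟨g, hg⟩ : L)} : Set L)).subtype).codRestrict _
    (fun x => by
      rw [Subgroup.mem_centralizer_iff]
      intro y hy
      rw [Set.mem_singleton_iff] at hy
      subst hy
      exact congrArg (fun z : L => (z : G)) (Subgroup.mem_centralizer_iff.1 x.2 _ rfl))

theorem cj_inj (L : Subgroup G) (g : G) (hg : g ∈ L) : Function.Injective (cj L g hg) := by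
  intro x y h
  exact Subtype.ext (Subtype.ext (congrArg (fun z : Subgroup.centralizer ({g} : Set G) =>
    (z : G)) h))

end gen

theorem pf_ua : T_CH → T_PK → T_QC → T_G8 → T_KI → T_WA → T_UA := by
  classical
  intro hCH hPK hQC hG8 hKI hWA G _ _ π hC hU hAS
  -- an element of order three
  obtain ⟨a, ha⟩ := exists_ord hC 3 Nat.prime_three (by norm_num)
  have ha3 : a ^ 3 = 1 := by rw [← ha]; exact pow_orderOf_eq_one a
  have ha1 : a ≠ 1 := by
    rintro rfl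
    rw [orderOf_one] at ha
    omega
  have hcinf : Infinite (Subgroup.centralizer ({a} : Set G)) := by
    by_contra hfin
    rw [not_infinite_iff_finite] at hfin
    obtain ⟨F, k, hFk⟩ := hU a ha1 (3 * Nat.card (Subgroup.centralizer ({a} : Set G)))
    obtain ⟨L, n, φ, hgood, hF, hk⟩ := hC (insert a F) k
    have haL : a ∈ L := hF a (Finset.mem_insert_self _ _)
    have := hgood.1
    have h1 := hKI L (Fin n) φ hgood.2.1 ⟨a, haL⟩ (Subtype.ext ha3)
    have h2 := hFk L n φ hgood (fun y hy => hF y (Finset.mem_insert_of_mem hy)) hk haL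
    have h3 : Nat.card (Subgroup.centralizer ({(⟨a, haL⟩ : L)} : Set L)) ≤
        Nat.card (Subgroup.centralizer ({a} : Set G)) :=
      Nat.card_le_card_of_injective _ (cj_inj L a haL)
    omega
  obtain ⟨H, hHi, hHs⟩ := hAS a ha1
  obtain ⟨S, m, h, e, hSa, hm, hSℓ, hhS, hder, hhz⟩ := hWA G a ha3 H hHi hHs hcinf
  have hhSm : h ∈ S := by
    obtain ⟨y, -, hy⟩ := Subgroup.mem_map.1 hhS
    rw [← hy]
    exact y.2
  have hah : a * h = h * a := hSa h hhSm
  have hho : 0 < orderOf h := (finOrd hC h).orderOf_pos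
  -- the prime
  obtain ⟨ℓ, hℓ, hℓgt, hℓ1⟩ := Nat.exists_prime_gt_modEq_one (k := 3)
    (m + orderOf h + π.sup id + 5) (by norm_num)
  have hℓ3 : ℓ % 3 = 1 := hℓ1
  have hℓm : ¬ ℓ ∣ m := fun hd => by
    have := Nat.le_of_dvd hm hd
    omega
  have hℓh : ¬ ℓ ∣ orderOf h := fun hd => by
    have := Nat.le_of_dvd hho hd
    omega
  have hℓπ : ℓ ∉ π := fun hp => by
    have : ℓ ≤ π.sup id := Finset.le_sup (f := id) hp
    omega
  -- the element of order ℓ
  obtain ⟨g, hg⟩ := exists_ord hC ℓ hℓ (by omega)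
  have hgℓ : g ^ ℓ = 1 := by rw [← hg]; exact pow_orderOf_eq_one g
  have hg1 : g ≠ 1 := by
    rintro rfl
    rw [orderOf_one] at hg
    omega
  obtain ⟨Hg, hHgi, hHgs⟩ := hAS g hg1
  set Sg := Hg.normalCore with hSg
  have : Hg.FiniteIndex := ⟨hHgi⟩
  have hSgi : Sg.index ≠ 0 := Subgroup.FiniteIndex.index_ne_zero
  have hSgn : Sg.Normal := Subgroup.normalCore_normal Hg
  have hSgs : Group.IsSolvable Sg := by
    have := hHgs
    exact Group.isSolvable_of_isSolvable_injective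
      (f := Subgroup.inclusion Hg.normalCore_le) (Subgroup.inclusion_injective _)
  obtain ⟨c, hc5, hcm⟩ : ∃ c : ℕ, 5 ≤ c ∧ 2 * Sg.index < c :=
    ⟨max 5 (2 * Sg.index + 1), le_max_left _ _, lt_of_lt_of_le (Nat.lt_succ_self _)
      (le_max_right _ _)⟩
  have hx : ∀ κ : ℕ, h * a ^ κ ≠ 1 := fun κ h' => by
    refine hhz ?_
    rw [eq_inv_of_mul_eq_one_left h']
    exact Subgroup.inv_mem _ (Subgroup.pow_mem _ (Subgroup.mem_zpowers a) κ)
  choose F k hFk using fun κ : ℕ => hU (h * a ^ κ) (hx κ) 17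
  obtain ⟨Fa, ka, hFka⟩ := hU a ha1 17
  obtain ⟨Fg, kg, hFkg⟩ := hU g hg1 (ℓ * c)
  obtain ⟨L, n, φ, hgood, hF, hk⟩ := hC ((Finset.range 3).biUnion F ∪ Fa ∪ Fg ∪ {a, h, g})
    (k 0 + k 1 + k 2 + ka + kg)
  have haL : a ∈ L := hF a (by simp)
  have hhL : h ∈ L := hF h (by simp)
  have hgL : g ∈ L := hF g (by simp)
  have hFκ : ∀ κ < 3, ∀ y ∈ F κ, y ∈ L := fun κ hκ y hy => hF y (by
    simp only [Finset.mem_union, Finset.mem_biUnion, Finset.mem_range]
    exact Or.inl (Or.inl (Or.inl ⟨κ, hκ, hy⟩)))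
  have hkκ : ∀ κ < 3, k κ ≤ n := fun κ hκ => by
    interval_cases κ <;> omega
  have hsa : 18 ≤ (φ ⟨a, haL⟩ : Perm (Fin n)).support.card :=
    hFka L n φ hgood (fun y hy => hF y (by simp [hy])) (by omega) haL
  have hsg : ℓ * c ≤ (φ ⟨g, hgL⟩ : Perm (Fin n)).support.card :=
    (hFkg L n φ hgood (fun y hy => hF y (by simp [hy])) (by omega) hgL).le
  have hsh : ∀ κ < 3, 18 ≤ ((φ ⟨h, hhL⟩ : Perm (Fin n)) *
      (φ ⟨a, haL⟩ : Perm (Fin n)) ^ κ).support.card := by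
    intro κ hκ
    have h1 := hFk κ L n φ hgood (hFκ κ hκ) (hkκ κ hκ) (L.mul_mem hhL (L.pow_mem haL κ))
    have h2 : (φ ⟨h * a ^ κ, L.mul_mem hhL (L.pow_mem haL κ)⟩ : Perm (Fin n)) =
        (φ ⟨h, hhL⟩ : Perm (Fin n)) * (φ ⟨a, haL⟩ : Perm (Fin n)) ^ κ := by
      rw [← Subgroup.coe_pow, ← Subgroup.coe_mul, ← map_pow, ← map_mul]
      rfl
    rw [h2] at h1
    exact h1
  obtain ⟨hfin, hsurj, A, B, hAB, hcomm, hnil, hBπ⟩ := hgood
  have := hfin
  obtain ⟨P, K, hPn, hKn, hPK', hPp, hKℓ⟩ := hPK L φ.ker A B inferInstance hAB hcomm hnil ℓ hℓ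
    (fun hd => hℓπ (hBπ ℓ hℓ hd))
  have haL' : (⟨a, haL⟩ : L) * ⟨h, hhL⟩ = ⟨h, hhL⟩ * ⟨a, haL⟩ := Subtype.ext hah
  have hpow : ∀ x ∈ P.map L.subtype, ∃ k : ℕ, x ^ (ℓ ^ k) = 1 := by
    intro x hx
    obtain ⟨y, hy, rfl⟩ := Subgroup.mem_map.1 hx
    obtain ⟨k, hk⟩ := hPp ⟨y, hy⟩
    refine ⟨k, ?_⟩
    have h1 := congrArg (fun z : P => ((z : L) : G)) hk
    simpa using h1
  have hPc := hCH G S a h e ℓ hℓ (by omega) ha3 hSa hhS hder hho hℓh (P.map L.subtype) hpow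
    (fun x hx => by
      obtain ⟨y, hy, rfl⟩ := Subgroup.mem_map.1 hx
      exact Subgroup.mem_map.2 ⟨⟨h, hhL⟩ * y * ⟨h, hhL⟩⁻¹, hPn.conj_mem y hy _, by simp⟩)
    (fun x hx hax => hSℓ ℓ hℓ hℓm x hax (hpow x hx))
  have hcl := hQC L (Fin n) φ hsurj P K hPn hKn hPK' ℓ hℓ hℓ3 hPp hKℓ ⟨a, haL⟩ ⟨h, hhL⟩
    (Subtype.ext ha3) haL'
    (fun x hx hax => Subtype.ext (hPc (x : G) (Subgroup.mem_map.2 ⟨x, hx, rfl⟩)
      (congrArg (fun z : L => (z : G)) hax))) hsa hsh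
  set j := cj L g hgL with hj
  have hjs : Group.IsSolvable (Sg.comap j) := by
    have := hSgs
    refine Group.isSolvable_of_isSolvable_injective (f := j.subgroupComap Sg) ?_
    intro x y hxy
    have h1 : j x = j y := congrArg (fun z : Sg => (z : Subgroup.centralizer ({g} : Set G))) hxy
    exact Subtype.ext (cj_inj L g hgL h1)
  have hfinal := hG8 L (Fin n) φ hsurj K hKn (hPK' ▸ le_sup_right) ℓ hℓ hKℓ hcl ⟨g, hgL⟩
    (Subtype.ext hgℓ) c hc5 hsg (Sg.comap j) (hSgn.comap j) hjs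
  have h1 : (Sg.comap j).index ≤ Sg.index := by
    rw [Subgroup.index_comap]
    exact Nat.le_of_dvd (Nat.pos_of_ne_zero hSgi) (Subgroup.relIndex_dvd_index_of_normal _ _)
  have h2 := Nat.self_le_factorial c
  omega

end Pool.Agent.H49.NS.UA
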